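import Pool.Agent.H2.NL.Targets2

/-!
# Basic lemmas on tensors
-/

set_option autoImplicit false
set_option linter.unusedSectionVars false

open Matrix

namespace Pool.Agent.H2.NL

section signs

variable (K : Type) [Field K]

theorem ks_comm (p q : Bool) : ks K p q = ks K q p := by
  unfold ks
  cases p <;> cases q <;> simp

theorem ks_mul_self (p q : Bool) : ks K p q * ks K p q = 1 := by
  unfold ks
  cases p <;> cases q <;> simp

theorem ks_self (p : Bool) : ks K p p = sg K p := by
  unfold ks sg
  cases p <;> simp

theorem ks_false_left (q : Bool) : ks K false q = 1 := by simp [ks]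

theorem ks_false_right (q : Bool) : ks K q false = 1 := by simp [ks]

theorem ks_true_left (q : Bool) : ks K true q = sg K q := by
  unfold ks sg
  cases q <;> simp

theorem sg_mul_self (p : Bool) : sg K p * sg K p = 1 := by
  unfold sg
  cases p <;> simp

theorem sg_true : sg K true = -1 := by simp [sg]

theorem sg_false : sg K false = 1 := by simp [sg]

end signs

section tensors

variable {K : Type} [Field K] {I : Type} [Fintype I]

/-- exchange of the letters after `α` -/
theorem sw_append (o : I → Bool) (α : List I) : ∀ (t : List I → K) (a b : I) (β : List I),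
    sw o α.length t (α ++ a :: b :: β) = ks K (o a) (o b) * t (α ++ b :: a :: β) := by
  induction α with
  | nil => intro t a b β; rfl
  | cons x α ih => intro t a b β; exact ih (fun l' => t (x :: l')) a b β

/-- a word of length at least `j + 2` has letters at the places `j`, `j + 1` -/
theorem exists_split {I : Type} (j : ℕ) (w : List I) (h : j + 2 ≤ w.length) :
    ∃ (α : List I) (a b : I) (β : List I), α.length = j ∧ w = α ++ a :: b :: β := by
  induction j generalizing w with
  | zero =>
    match w, h with
    | a :: b :: β, _ => exact ⟨[], a, b, β, rfl, rfl⟩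
  | succ j ih =>
    match w, h with
    | x :: w, h =>
      obtain ⟨α, a, b, β, hα, hw⟩ := ih w (by simp at h; omega)
      exact ⟨x :: α, a, b, β, by simp [hα], by simp [hw]⟩

/-- a word of length at least `j` -/
theorem exists_split' {I : Type} (j : ℕ) (w : List I) (h : j ≤ w.length) :
    ∃ (α β : List I), α.length = j ∧ w = α ++ β :=
  ⟨w.take j, w.drop j, by simp [h], by simp⟩

theorem sw_sw (o : I → Bool) (j : ℕ) (t : List I → K) (w : List I) (h : j + 2 ≤ w.length) :
    sw o j (sw o j t) w = t w := by
  obtain ⟨α, a, b, β, rfl, rfl⟩ := exists_split j w h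
  rw [sw_append, sw_append, ← mul_assoc, ks_comm K (o a) (o b), ks_mul_self, one_mul]

theorem sw_congr (o : I → Bool) (j n : ℕ) (t t' : List I → K)
    (h : ∀ w : List I, w.length = n → t w = t' w) (hj : j + 2 ≤ n) (w : List I)
    (hw : w.length = n) : sw o j t w = sw o j t' w := by
  obtain ⟨α, a, b, β, rfl, rfl⟩ := exists_split j w (by omega)
  rw [sw_append, sw_append, h _ (by simp at hw ⊢; omega)]

/-- contraction after `α` -/
theorem con_append (η : Matrix I I K) (α : List I) : ∀ (t : List I → K) (β : List I),
    con η α.length t (α ++ β) = ∑ a, ∑ b, η a b * t (α ++ a :: b :: β) := by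
  induction α with
  | nil => intro t β; rfl
  | cons x α ih => intro t β; exact ih (fun l' => t (x :: l')) β

theorem con_congr (η : Matrix I I K) (j n : ℕ) (t t' : List I → K)
    (h : ∀ w : List I, w.length = n + 2 → t w = t' w) (hj : j ≤ n) (w : List I)
    (hw : w.length = n) : con η j t w = con η j t' w := by
  obtain ⟨α, β, rfl, rfl⟩ := exists_split' j w (by omega)
  rw [con_append, con_append]
  refine Finset.sum_congr rfl fun a _ => Finset.sum_congr rfl fun b _ => ?_
  rw [h _ (by simp at hw ⊢; omega)]

theorem tp_append (t t' : List I → K) (α β : List I) :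
    tp α.length t t' (α ++ β) = t α * t' β := by
  simp [tp]

end tensors

section form

variable {K : Type} [Field K] {I : Type} [Fintype I] [DecidableEq I] (F : Form K I)

theorem Form.st_inj : Function.Injective F.st := fun a b h => by
  rw [← F.st_st a, h, F.st_st]

theorem Form.c_mul_self (a : I) : F.c a * F.c a = 1 := by
  rcases F.c_val a with h | h <;> rw [h] <;> simp

theorem Form.st_eq_iff (a b : I) : F.st a = b ↔ a = F.st b := by
  constructor
  · intro h; rw [← h, F.st_st]
  · intro h; rw [h, F.st_st]

theorem Form.sum_st (f : I → K) : ∑ a, f (F.st a) = ∑ a, f a :=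
  Function.Bijective.sum_comp ⟨F.st_inj, fun b => ⟨F.st b, F.st_st b⟩⟩ f

theorem Form.sg_c_st (a : I) : sg K (F.o a) * F.c (F.st a) = F.c a := by
  rw [F.c_st, ← mul_assoc, sg_mul_self, one_mul]

theorem Form.c_c_st (a : I) : F.c a * F.c (F.st a) = sg K (F.o a) := by
  rw [F.c_st, mul_left_comm, F.c_mul_self, mul_one]

/-- the contraction with a hyperbolic form -/
theorem Form.con_append (α : List I) (t : List I → K) (β : List I) :
    con F.η α.length t (α ++ β) = ∑ a, F.c a * t (α ++ a :: F.st a :: β) := by
  rw [NL.con_append]
  refine Finset.sum_congr rfl fun a _ => ?_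
  rw [Finset.sum_eq_single (F.st a)]
  · rw [Form.η, Matrix.of_apply, if_pos rfl]
  · intro b _ hb
    rw [Form.η, Matrix.of_apply, if_neg hb, zero_mul]
  · intro h
    exact absurd (Finset.mem_univ _) h

theorem Form.η_mul_ω : F.η * F.ω = 1 := by
  ext a b
  rw [Matrix.mul_apply, Finset.sum_eq_single (F.st a)]
  · rw [Form.η, Form.ω, Matrix.of_apply, Matrix.of_apply, if_pos rfl, F.st_st, Matrix.one_apply]
    by_cases h : b = a
    · rw [if_pos h, if_pos h.symm, h, F.c_mul_self]
    · rw [if_neg h, if_neg (Ne.symm h), mul_zero]
  · intro c _ hc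
    rw [Form.η, Matrix.of_apply, if_neg hc, zero_mul]
  · intro h
    exact absurd (Finset.mem_univ _) h

theorem Form.ω_mul_η : F.ω * F.η = 1 := mul_eq_one_comm.1 F.η_mul_ω

end form

end Pool.Agent.H2.NL
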