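import Pool.Agent.H2.NL.Basic
import Pool.Agent.H64.CC.Ind

/-!
# The final assembly, from the rows LOC, CPW, NIL
-/

set_option autoImplicit false

open Matrix Pool.Agent.H64.CC

namespace Pool.Agent.H2.NL

variable {K : Type} [Field K] [CharZero K] (W : Weil K) (h : W.Theory)

include h in
/-- one complete intersection -/
theorem one_tfae (hLOC : T_LOC) (hCPW : T_CPW) (hNIL : T_NIL) {V : W.Var 0} {L : W.Hom V V}
    (hL : L ∈ W.Lef V) {r m : ℕ} {T : W.Var m} (S : W.Symplectic V L r T) :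
    List.TFAE [
      W.Cplus T,
      ∀ n : ℕ, 2 * n ≤ W.rk T + 2 → W.NoPhantom (S.powers.pow n),
      ∀ n : ℕ, W.Nilpotence (S.powers.pow n)] := by
  tfae_have 1 → 3 := fun H n =>
    (hNIL K W h m (S.powers.pow n)).1 (hCPW K W h m T S.powers H n)
  tfae_have 3 → 2 := fun H n _ => (hNIL K W h m (S.powers.pow n)).2 (H n)
  tfae_have 2 → 1 := fun H => hLOC K W h V L hL r m T S H
  tfae_finish

include h in
/-- one variety -/
theorem var_tfae (hLOC : T_LOC) (hCPW : T_CPW) (hNIL : T_NIL) (hS : W.OddSections)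
    (Z : W.Var 0) :
    List.TFAE [
      W.B Z,
      ∀ (m : ℕ) (T : W.Var m), W.IsIntersection (W.prod Z Z) T → W.C T,
      ∀ L ∈ W.Lef (W.prod Z Z), ∀ r m : ℕ, 1 ≤ r → ∀ (T : W.Var m)
        (_ : W.Symplectic (W.prod Z Z) L r T), W.Cplus T,
      ∀ L ∈ W.Lef (W.prod Z Z), ∀ r m : ℕ, 1 ≤ r → ∀ (T : W.Var m)
        (S : W.Symplectic (W.prod Z Z) L r T), ∀ n : ℕ, 2 * n ≤ W.rk T + 2 →
        W.NoPhantom (S.powers.pow n),
      ∀ L ∈ W.Lef (W.prod Z Z), ∀ r m : ℕ, 1 ≤ r → ∀ (T : W.Var m)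
        (S : W.Symplectic (W.prod Z Z) L r T), ∀ n : ℕ, W.Nilpotence (S.powers.pow n)] := by
  tfae_have 1 → 2 := by
    rintro H m T ⟨L, hL, r, -, ⟨S⟩⟩
    exact c_of_b (toTheory W h) Z ((b_iff W h Z).2 H) hL (int W h S)
  tfae_have 2 → 3 := fun H L hL r m hr T S => cplus_of_c (toTheory W h) T
    (H m T ⟨L, hL, r, hr, ⟨S.toIntersection⟩⟩)
  tfae_have 3 ↔ 4 := by
    constructor
    · exact fun H L hL r m hr T S =>
        ((one_tfae W h hLOC hCPW hNIL hL S).out 0 1).1 (H L hL r m hr T S)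
    · exact fun H L hL r m hr T S =>
        ((one_tfae W h hLOC hCPW hNIL hL S).out 0 1).2 (H L hL r m hr T S)
  tfae_have 3 ↔ 5 := by
    constructor
    · exact fun H L hL r m hr T S =>
        ((one_tfae W h hLOC hCPW hNIL hL S).out 0 2).1 (H L hL r m hr T S)
    · exact fun H L hL r m hr T S =>
        ((one_tfae W h hLOC hCPW hNIL hL S).out 0 2).2 (H L hL r m hr T S)
  tfae_have 3 → 1 := by
    intro H
    refine b_of_sign W h Z fun i hi => ?_
    obtain ⟨L, hL⟩ := h.lefschetz.nonempty Z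
    have hLL := h.lefschetz.box_mem Z Z L hL L hL
    obtain ⟨m, T, ⟨S⟩⟩ := hS (W.prod Z Z) (W.box L L) hLL (2 * (W.dim Z - i) - 1) (by omega)
      (by rw [h.products.dim_prod]; omega)
      (by rw [h.products.dim_prod]; exact ⟨i, by omega⟩)
    exact ⟨L, hL, m, T, ⟨S.toGenericIntersection⟩, H _ hLL _ m (by omega) T S⟩
  tfae_finish

include h in
/-- all varieties -/
theorem all_tfae (hLOC : T_LOC) (hCPW : T_CPW) (hNIL : T_NIL) (hS : W.OddSections)
    (hM : W.Models) :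
    List.TFAE [
      ∀ (n : ℕ) (X : W.Var n), W.Cplus X,
      ∀ (n : ℕ) (X : W.Var n), W.Nilpotence X,
      ∀ (n : ℕ) (X : W.Var n), W.NoPhantom X,
      ∀ Z : W.Var 0, W.B Z,
      ∀ (n : ℕ) (X : W.Var n), W.C X ∧ W.B X] := by
  tfae_have 1 → 2 := fun H n X => (hNIL K W h n X).1 (H n X)
  tfae_have 2 → 3 := fun H n X => (hNIL K W h n X).2 (H n X)
  tfae_have 3 → 4 := by
    intro H Z
    refine ((var_tfae W h hLOC hCPW hNIL hS Z).out 3 0).1 ?_
    intro L hL r m hr T S n hn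
    exact H m (S.powers.pow n)
  tfae_have 4 → 5 := fun H n X => by
    have h0 := graded_b (toTheory W h) (models_to W h hM) n (W.dim X)
      (fun Z _ => (b_iff W h Z).2 (H Z)) X rfl
    exact ⟨h0.1, (b_iff W h X).1 h0.2⟩
  tfae_have 5 → 1 := fun H n X => cplus_of_c (toTheory W h) X (H n X).1
  tfae_finish

end Pool.Agent.H2.NL
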