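import Pool.Agent.H64.CC.Bridge

/-!
# Numerically trivial correspondences and the sign conjecture: definitions
-/

set_option autoImplicit false

open Matrix

namespace Pool.Agent.H2.NL

/-- the Koszul sign of two homogeneous elements; `true` means odd -/
def ks (K : Type) [Field K] (p q : Bool) : K := if p = true ∧ q = true then -1 else 1

/-- the sign of a parity; `true` means odd -/
def sg (K : Type) [Field K] (p : Bool) : K := if p = true then -1 else 1

section tensors

variable {K : Type} [Field K] {I : Type} [Fintype I]

/-- A tensor of order `n` on the super vector space with basis `I` is given by its coefficients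
`t w`, for the words `w` of length `n`. `sw o j t` is the tensor `t` with the places `j` and `j + 1`
exchanged, with the Koszul sign; `o` is the parity of the basis elements -/
def sw (o : I → Bool) : ℕ → (List I → K) → List I → K
  | 0, t, a :: b :: l => ks K (o a) (o b) * t (b :: a :: l)
  | 0, t, [a] => t [a]
  | 0, t, [] => t []
  | j + 1, t, a :: l => sw o j (fun l' => t (a :: l')) l
  | _ + 1, t, [] => t []

/-- the contraction of the places `j` and `j + 1` with the form `η` -/
def con (η : Matrix I I K) : ℕ → (List I → K) → List I → K
  | 0, t, l => ∑ a, ∑ b, η a b * t (a :: b :: l)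
  | j + 1, t, a :: l => con η j (fun l' => t (a :: l')) l
  | _ + 1, _, [] => 0

/-- the tensor of order two with the coefficients `s a b` -/
def two (s : Matrix I I K) : List I → K
  | [a, b] => s a b
  | _ => 0

/-- the tensor product of a tensor `t` of order `n` and a tensor `t'` -/
def tp (n : ℕ) (t t' : List I → K) (w : List I) : K := t (w.take n) * t' (w.drop n)

/-- the action of the endomorphism with the matrix `T`, as a derivation, on tensors -/
def der (T : Matrix I I K) : (List I → K) → List I → K
  | _, [] => 0
  | t, a :: l => ∑ b, T a b * t (b :: l) + der T (fun l' => t (a :: l')) l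

/-- the number of odd letters of a word -/
def odds (o : I → Bool) (w : List I) : ℕ := (w.filter o).length

/-- the matrix entry `(u, u')` of the endomorphism of the tensors of order `l` which is given by the
tensor `t` of order `2l`: the last `l` places of `t` are contracted with the places of `u'`, in the
opposite order, so that there are no signs -/
def opw (η : Matrix I I K) (l : ℕ) (t : List I → K) (u u' : List I) : K :=
  ∑ v : List.Vector I l, t (u ++ v.1) * (List.zipWith (fun a b => η a b) v.1.reverse u').prod

/-- the calculus of the classes of cycles on the powers of a variety `T` with `H(T) = K ^ I`. `A k`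
is the space of the tensors of order `2k` (functions on words, of which only the values on the words
of length `2k` matter) which are classes of cycles of codimension `k dim T` on `T ^ (2k)`. They are
closed under external products, permutations of the factors, and the contraction of two adjacent
factors (restriction to the diagonal, then direct image); `ω` is the class of the diagonal; the
classes have even degree -/
structure Calc [CharZero K] (o : I → Bool) (η ω : Matrix I I K)
    (A : ℕ → Submodule ℚ (List I → K)) : Prop where
  congr : ∀ (k : ℕ) (t t' : List I → K), t ∈ A k → (∀ w, w.length = 2 * k → t' w = t w) → t' ∈ A k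
  one : (fun _ => 1) ∈ A 0
  om : two ω ∈ A 1
  tp : ∀ (k k' : ℕ) (t t' : List I → K), t ∈ A k → t' ∈ A k' → tp (2 * k) t t' ∈ A (k + k')
  sw : ∀ (k j : ℕ) (t : List I → K), t ∈ A k → j + 2 ≤ 2 * k → sw o j t ∈ A k
  con : ∀ (k j : ℕ) (t : List I → K), t ∈ A (k + 1) → j ≤ 2 * k → con η j t ∈ A k
  even : ∀ (k : ℕ) (t : List I → K) (w : List I), t ∈ A k → w.length = 2 * k → t w ≠ 0 →
    Even (odds o w)

end tensors

end Pool.Agent.H2.NL

namespace Pool.Agent.H64.CC.Weil

open Pool.Agent.H2.NL

variable {K : Type} [Field K] [CharZero K] (W : Weil K)

/-- the parity of the basis elements of `H(X)` -/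
def par {n : ℕ} (X : W.Var n) (a : Fin (W.rk X)) : Bool := decide (Odd (W.deg X a))

/-- the powers of a variety `T`: `pow n = T ^ n`; the basis of `H(T ^ n)` consists of the external
products of the basis elements of `H(T)`, and `word n a` is the word of the factors of the basis
element `a`; `form` is the matrix of the Poincaré duality form `∫ x ∪ y` on `H(T)` -/
structure PowerData {m : ℕ} (T : W.Var m) where
  pow : ℕ → W.Var m
  word : ∀ n : ℕ, Fin (W.rk (pow n)) → List (Fin (W.rk T))
  form : W.Hom T T

/-- the tensors of order `2k` which are the classes of cycles of codimension `k dim T` on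
`T ^ (2k)` -/
def PowerData.classes {W : Weil K} {m : ℕ} {T : W.Var m} (P : W.PowerData T) (k : ℕ) :
    Submodule ℚ (List (Fin (W.rk T)) → K) where
  carrier := {t | (fun a => t (P.word (2 * k) a)) ∈ W.alg (P.pow (2 * k)) (k * W.dim T)}
  add_mem' := fun {_ _} h h' => (W.alg (P.pow (2 * k)) (k * W.dim T)).add_mem h h'
  zero_mem' := (W.alg (P.pow (2 * k)) (k * W.dim T)).zero_mem
  smul_mem' := fun q _ h => (W.alg (P.pow (2 * k)) (k * W.dim T)).smul_mem q h

/-- the calculus of cycles on the powers of `T`: the words of the basis elements, Poincaré duality,
the operations on the classes of cycles (`Calc`; the class of the diagonal is the inverse of the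
matrix of the form), and the relation of correspondences with classes of cycles -/
structure Powers {m : ℕ} (T : W.Var m) extends W.PowerData T where
  word_inj : ∀ n : ℕ, Function.Injective (word n)
  word_range : ∀ (n : ℕ) (w : List (Fin (W.rk T))), (∃ a, word n a = w) ↔ w.length = n
  word_deg : ∀ (n : ℕ) (a : Fin (W.rk (pow n))), W.deg (pow n) a = ((word n a).map (W.deg T)).sum
  form_deg : ∀ a b, form a b ≠ 0 → W.deg T a + W.deg T b = 2 * W.dim T
  form_symm : ∀ a b, form a b = ks K (W.par T a) (W.par T b) * form b a
  form_unit : IsUnit form
  calculus : Calc (W.par T) form form⁻¹ toPowerData.classes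
  graph : ∀ (l : ℕ) (f : W.Hom (pow l) (pow l)), f ∈ W.cyc (pow l) (pow l) 0 ↔
    ∃ t ∈ toPowerData.classes l, f = Matrix.of fun a b => opw form l t (word l a) (word l b)
  graph_one : ∀ f : W.Hom T T, f ∈ W.cyc T T 0 ↔
    ∃ t ∈ toPowerData.classes 1, f = Matrix.of fun a b => opw form 1 t [a] [b]

/-- `u` is a vanishing class of the complete intersection `T` -/
def Vanishing {m : ℕ} {V : W.Var 0} {L : W.Hom V V} {r : ℕ} {T : W.Var m}
    (S : W.GenericIntersection V L r T) (u : W.H T) : Prop :=
  W.InH T (W.dim T) u ∧ W.ap S.down u = 0

/-- `T` is a generic complete intersection of odd dimension, of members of the linear systems of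
line bundles `N₁ L, …, Nᵣ L` with large `Nᵢ`, with its powers:

* the classes restricted from `V` are invariant under the monodromy group, and orthogonal to the
  vanishing classes (projection formula);
* the monodromy theorem of Deligne: the monodromy group is dense in the symplectic group of the
  space of vanishing classes. So its Lie algebra contains the endomorphisms `x ↦ ⟨u, x⟩ u` for the
  vanishing classes `u`, which vanish on the classes restricted from `V`; as every cycle on a power
  of `T` is defined over a finite extension of the field of definition of `T`, these endomorphisms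
  annihilate the classes of all cycles on the powers of `T`;
* the rank of `H(T)` is large with respect to the rank of `H(V)`, as the `Nᵢ` are large. -/
structure Symplectic {m : ℕ} (V : W.Var 0) (L : W.Hom V V) (r : ℕ) (T : W.Var m) extends
    W.GenericIntersection V L r T where
  powers : W.Powers T
  odd : Odd (W.dim T)
  up_inv : ∀ g ∈ Gal, W.comp g up = up
  down_inv : ∀ g ∈ Gal, W.comp down g = down
  orth : ∀ u, W.Vanishing toGenericIntersection u → ∀ x : W.H V,
    ∑ a, ∑ b, W.ap up x a * powers.form a b * u b = 0
  monodromy : ∀ u, W.Vanishing toGenericIntersection u → ∀ (k : ℕ),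
    ∀ t ∈ powers.toPowerData.classes k, ∀ w, w.length = 2 * k →
    der (Matrix.of fun a b => u a * ∑ c, u c * powers.form c b) t w = 0
  large : 2 * W.rk V * (W.rk V + 1) < W.rk T

/-- generic complete intersections of odd dimension, with these properties, exist for all varieties
over `F 0` and all ample line bundles -/
def OddSections : Prop := ∀ V : W.Var 0, ∀ L ∈ W.Lef V, ∀ r, 1 ≤ r → r < W.dim V →
  Odd (W.dim V - r) → ∃ (m : ℕ) (T : W.Var m), Nonempty (W.Symplectic V L r T)

/-- the correspondence `f` of degree 0 is numerically trivial -/
def NumTrivial {n : ℕ} (X : W.Var n) (f : W.Hom X X) : Prop :=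
  ∀ g ∈ W.cyc X X 0, W.str (W.comp g f) = 0

/-- the numerically trivial correspondences of degree 0 from `X` to `X` are nilpotent modulo
homological equivalence -/
def Nilpotence {n : ℕ} (X : W.Var n) : Prop :=
  ∀ f ∈ W.cyc X X 0, W.NumTrivial X f → ∃ N : ℕ, W.pw f N = 0

/-- there are no phantoms: the homological motive of `X` has no direct factor which is not zero, but
is zero modulo numerical equivalence -/
def NoPhantom {n : ℕ} (X : W.Var n) : Prop :=
  ∀ e ∈ W.cyc X X 0, W.comp e e = e → W.NumTrivial X e → e = 0

end Pool.Agent.H64.CC.Weil
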