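import Pool.Agent.H2.NL.Defs

/-!
# The abstract system: definitions for the proof
-/

set_option autoImplicit false

open Matrix

namespace Pool.Agent.H2.NL

/-- hyperbolic supersymmetric forms: `⟨a, st a⟩ = c a`, and the other products of basis elements
vanish -/
structure Form (K : Type) [Field K] (I : Type) where
  o : I → Bool
  st : I → I
  c : I → K
  st_st : ∀ a, st (st a) = a
  st_ne : ∀ a, st a ≠ a
  o_st : ∀ a, o (st a) = o a
  c_val : ∀ a, c a = 1 ∨ c a = -1
  c_st : ∀ a, c (st a) = sg K (o a) * c a
  c_even : ∀ a, o a = false → c a = 1

section form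

variable {K : Type} [Field K] {I : Type} [Fintype I] [DecidableEq I] (F : Form K I)

/-- the matrix of the form -/
def Form.η : Matrix I I K := Matrix.of fun a b => if b = F.st a then F.c a else 0

/-- the class of the diagonal -/
def Form.ω : Matrix I I K := Matrix.of fun a b => if b = F.st a then F.c b else 0

/-- the super dimension -/
def Form.sd : K := ∑ a, sg K (F.o a)

/-- the element `e_p e_q + e_q e_p` of the Lie algebra -/
def Form.T (p q : I) : Matrix I I K :=
  Matrix.of fun a b => (if a = p then F.η q b else 0) + (if a = q then F.η p b else 0)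

/-- the number of the pairs of the tensors `f`, `g` of order `n`, in parallel form -/
def Pr : ℕ → (List I → K) → (List I → K) → K
  | 0, f, g => f [] * g []
  | n + 1, f, g => ∑ a, F.c a * Pr n (fun l => f (a :: l)) (fun l => g (F.st a :: l))

/-- symmetric tensors of order `n` -/
def Symm (o : I → Bool) (n : ℕ) (t : List I → K) : Prop :=
  ∀ j, j + 2 ≤ n → ∀ w, w.length = n → sw o j t w = t w

/-- the tensor with the words reversed -/
def rv (t : List I → K) (w : List I) : K := t w.reverse

/-- contraction of the first two places, in the opposite order -/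
def con' (t : List I → K) (w : List I) : K := ∑ a, F.c a * t (F.st a :: a :: w)

/-- iterated contraction of the first two places -/
def itc (F : Form K I) : ℕ → (List I → K) → K
  | 0, t => t []
  | n + 1, t => itc F n (con F.η 0 t)

/-- the contraction of `x` and `y` in all places but the first -/
def C1 (n : ℕ) (x y : List I → K) (a d : I) : K :=
  Pr F (n - 1) (fun l => x (a :: l)) (fun l => y (d :: l))

/-- the contraction of `x` and `y` in all places but the first two -/
def C2 (n : ℕ) (x y : List I → K) (a b e d : I) : K :=
  Pr F (n - 2) (fun l => x (a :: b :: l)) (fun l => y (d :: e :: l))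

/-- the tensor of order four with given coefficients -/
def four (s : I → I → I → I → K) : List I → K
  | [a, b, c, d] => s a b c d
  | _ => 0

/-- the endomorphism of the tensors of order two which is given by a tensor of order four -/
def M4 (t : List I → K) : Matrix (I × I) (I × I) K :=
  Matrix.of fun x y => t [x.1, x.2, F.st y.2, F.st y.1] * (F.c (F.st y.1) * F.c (F.st y.2))

/-- the Koszul exchange -/
def Sx : Matrix (I × I) (I × I) K :=
  Matrix.of fun x y => if x.1 = y.2 ∧ x.2 = y.1 then ks K (F.o x.1) (F.o x.2) else 0

/-- the supertrace -/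
def str2 (g : Matrix (I × I) (I × I) K) : K := ∑ x, sg K (F.o x.1) * sg K (F.o x.2) * g x x

/-- the action of an endomorphism on the tensors of order two, as a derivation -/
def D2 (T : Matrix I I K) : Matrix (I × I) (I × I) K :=
  Matrix.of fun x y => T x.1 y.1 * (if x.2 = y.2 then 1 else 0) +
    (if x.1 = y.1 then 1 else 0) * T x.2 y.2

/-- the partial supertrace over the second factor -/
def pt2 (g : Matrix (I × I) (I × I) K) : Matrix I I K :=
  Matrix.of fun a b => ∑ y, sg K (F.o y) * g (a, y) (b, y)

/-- iterated exchanges -/
def sws (o : I → Bool) (js : List ℕ) (t : List I → K) : List I → K :=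
  js.foldr (fun j t => sw o j t) t

/-- the endomorphism of the tensors of order `l` which is given by a tensor of order `2l` -/
def op (η : Matrix I I K) (l : ℕ) (t : List I → K) :
    Matrix (List.Vector I l) (List.Vector I l) K := Matrix.of fun u u' => opw η l t u.1 u'.1

/-- the sign of a word -/
def sgw (K : Type) [Field K] {I : Type} (o : I → Bool) (w : List I) : K := (w.map fun a => sg K (o a)).prod

/-- the identity tensor of order `2l`: `idt l (u ++ v) = ∏ ω (u k) (v (l + 1 - k))` -/
def idt (ω : Matrix I I K) (l : ℕ) (w : List I) : K :=
  (List.zipWith (fun a b => ω a b) (w.take l) (w.drop l).reverse).prod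

/-- the image of a tensor under a linear map with the matrix `j` -/
def pf {J : Type} [Fintype J] (j : Matrix I J K) : (List J → K) → List I → K
  | t, [] => t []
  | t, a :: w => ∑ b, j a b * pf j (fun l => t (b :: l)) w

/-- products of matrix entries, as a matrix indexed by words -/
def Jm {J : Type} (j : Matrix I J K) (l : ℕ) : Matrix (List.Vector I l) (List.Vector J l) K :=
  Matrix.of fun u v => (List.zipWith (fun a b => j a b) u.1 v.1).prod

end form

theorem pf_add {K : Type} [Field K] {I J : Type} [Fintype J] (j : Matrix I J K)
    (w : List I) : ∀ t t' : List J → K, pf j (t + t') w = pf j t w + pf j t' w := by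
  induction w with
  | nil => intro t t'; rfl
  | cons a w ih =>
    intro t t'
    show ∑ b, j a b * pf j ((fun l => t (b :: l)) + fun l => t' (b :: l)) w = _
    simp only [ih, mul_add, Finset.sum_add_distrib]
    rfl

theorem pf_smul {K : Type} [Field K] {I J : Type} [Fintype J] (j : Matrix I J K)
    (s : K) (w : List I) : ∀ t : List J → K, pf j (s • t) w = s * pf j t w := by
  induction w with
  | nil => intro t; rfl
  | cons a w ih =>
    intro t
    show ∑ b, j a b * pf j (s • fun l => t (b :: l)) w = s * ∑ b, j a b * pf j _ w
    rw [Finset.mul_sum]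
    refine Finset.sum_congr rfl fun b _ => ?_
    rw [ih]
    ring

/-- the tensors with image in `A` -/
def pull {K : Type} [Field K] [CharZero K] {I J : Type} [Fintype J] (j : Matrix I J K)
    (A : ℕ → Submodule ℚ (List I → K)) (k : ℕ) : Submodule ℚ (List J → K) where
  carrier := {t | pf j t ∈ A k}
  add_mem' := by
    intro t t' h h'
    have e : pf j (t + t') = pf j t + pf j t' := funext fun w => pf_add j w t t'
    show pf j (t + t') ∈ A k
    rw [e]
    exact (A k).add_mem h h'
  zero_mem' := by
    have e : pf j (0 : List J → K) = 0 := by
      funext w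
      have h := pf_smul j 0 w (0 : List J → K)
      rw [zero_smul, zero_mul] at h
      exact h
    show pf j 0 ∈ A k
    rw [e]
    exact (A k).zero_mem
  smul_mem' := by
    intro q t h
    have e : pf j (q • t) = q • pf j t := by
      funext w
      have h1 : (q • t : List J → K) = (q : K) • t := by
        funext v
        exact Rat.smul_def q (t v)
      rw [h1, pf_smul]
      exact (Rat.smul_def q (pf j t w)).symm
    show pf j (q • t) ∈ A k
    rw [e]
    exact (A k).smul_mem q h

/-- The system of the classes of cycles on the powers of the motive `R`: `H(R)` is the orthogonal sum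
of the vanishing cohomology, with the basis `V`, and a small space, with the basis `P` -/
structure Sys {K : Type} [Field K] [CharZero K] {V P : Type} [Fintype V] [DecidableEq V] [Fintype P]
    [DecidableEq P] (F : Form K (V ⊕ P)) (A : ℕ → Submodule ℚ (List (V ⊕ P) → K)) : Prop where
  calculus : Calc F.o F.η F.ω A
  st_V : ∀ p : V, ∃ q : V, F.st (Sum.inl p) = Sum.inl q
  o_V : ∀ p : V, F.o (Sum.inl p) = true
  mono : ∀ (p q : V) (k : ℕ), ∀ t ∈ A k, ∀ w, w.length = 2 * k →
    der (F.T (Sum.inl p) (Sum.inl q)) t w = 0
  endo : ∀ t ∈ A 1, ∃ q : ℚ, (∀ p : V, t [Sum.inl p, F.st (Sum.inl p)] =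
    (q : K) * F.c (F.st (Sum.inl p))) ∧ con F.η 0 t [] = (q : K) * F.sd
  large : 2 * Fintype.card P ^ 2 + Fintype.card P < Fintype.card V

end Pool.Agent.H2.NL
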