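import Pool.Agent.H2.NL.Sys

/-!
# Targets
-/

set_option autoImplicit false

open Matrix Pool.Agent.H64.CC

namespace Pool.Agent.H2.NL

/-! ### Tensors with a hyperbolic form -/

/-- POS: all contractions of adjacent places of a symmetric tensor are equal. -/
def T_POS : Prop := ∀ (K : Type) [Field K] (I : Type) [Fintype I] [DecidableEq I] (F : Form K I)
  (n : ℕ) (t : List I → K), Symm F.o (n + 2) t → ∀ j ≤ n, ∀ w : List I, w.length = n →
  con F.η j t w = con F.η 0 t w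

/-- CSY: the contraction of a symmetric tensor is symmetric. -/
def T_CSY : Prop := ∀ (K : Type) [Field K] (I : Type) [Fintype I] [DecidableEq I] (F : Form K I)
  (n : ℕ) (t : List I → K), Symm F.o (n + 2) t →
  Symm F.o n (con F.η 0 t) ∧ Symm F.o n (con' F t)

/-- REV: reversed words. -/
def T_REV : Prop := ∀ (K : Type) [Field K] (I : Type) [Fintype I] [DecidableEq I] (F : Form K I)
  (n : ℕ) (t : List I → K),
  (∀ j, j + 2 ≤ n → ∀ w : List I, w.length = n → sw F.o j (rv t) w = rv (sw F.o (n - 2 - j) t) w) ∧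
  (∀ w : List I, w.length = n → con' F (rv t) w = rv (con F.η n t) w)

/-- PSW: exchanges and the pairing in parallel form. -/
def T_PSW : Prop := ∀ (K : Type) [Field K] (I : Type) [Fintype I] [DecidableEq I] (F : Form K I)
  (n j : ℕ) (f g : List I → K), j + 2 ≤ n →
  Pr F n (sw F.o j f) (sw F.o j g) = Pr F n f g ∧ Pr F n (sw F.o j f) g = Pr F n f (sw F.o j g)

/-- DER: the derivation and the pairing, for symmetric tensors. -/
def T_DER : Prop := ∀ (K : Type) [Field K] (I : Type) [Fintype I] [DecidableEq I] (F : Form K I)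
  (T : Matrix I I K), (∀ a b, T a b ≠ 0 → F.o a = F.o b) →
  ∀ (n : ℕ) (f g : List I → K), Symm F.o (n + 1) f → Symm F.o (n + 1) g →
  Pr F (n + 1) (der T f) g = (n + 1 : K) * ∑ e, ∑ b, F.c e * T e b *
    Pr F n (fun l => f (b :: l)) (fun l => g (F.st e :: l))

/-- HZR: the invariance under the symplectic Lie algebra, contracted with `y`. -/
def T_HZR : Prop := ∀ (K : Type) [Field K] [CharZero K] (V P : Type) [Fintype V] [DecidableEq V]
  [Fintype P] [DecidableEq P] (F : Form K (V ⊕ P)) (A : ℕ → Submodule ℚ (List (V ⊕ P) → K)),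
  Sys F A → ∀ (k : ℕ) (x y : List (V ⊕ P) → K), 1 ≤ k → x ∈ A k → Symm F.o (2 * k) x →
  Symm F.o (2 * k) y → ∀ (p q : V) (a d : V ⊕ P),
  ∑ b, F.T (Sum.inl p) (Sum.inl q) a b * C1 F (2 * k) x y b d +
    (2 * k - 1 : K) * ∑ e, ∑ b, F.c e * F.T (Sum.inl p) (Sum.inl q) e b *
      C2 F (2 * k) x y a b (F.st e) d = 0

/-- MCC: the contractions of two classes in all places but one, or two, are classes. -/
def T_MCC : Prop := ∀ (K : Type) [Field K] [CharZero K] (I : Type) [Fintype I] [DecidableEq I]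
  (F : Form K I) (A : ℕ → Submodule ℚ (List I → K)), Calc F.o F.η F.ω A →
  ∀ (k : ℕ) (x y : List I → K), 1 ≤ k → x ∈ A k → rv y ∈ A k →
  two (Matrix.of fun a d => C1 F (2 * k) x y a d) ∈ A 1 ∧ four (C2 F (2 * k) x y) ∈ A 2

/-- MUL: composition of endomorphisms of the tensors of order two. -/
def T_MUL : Prop := ∀ (K : Type) [Field K] [CharZero K] (I : Type) [Fintype I] [DecidableEq I]
  (F : Form K I) (A : ℕ → Submodule ℚ (List I → K)), Calc F.o F.η F.ω A →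
  ∀ t ∈ A 2, ∀ t' ∈ A 2, ∃ t'' ∈ A 2, M4 F t'' = M4 F t * M4 F t'

/-- UNI: the identity and the exchange. -/
def T_UNI : Prop := ∀ (K : Type) [Field K] [CharZero K] (I : Type) [Fintype I] [DecidableEq I]
  (F : Form K I) (A : ℕ → Submodule ℚ (List I → K)), Calc F.o F.η F.ω A →
  (∃ t ∈ A 2, M4 F t = 1) ∧ (∃ t ∈ A 2, M4 F t = Sx F) ∧ Sx F * Sx F = 1

/-- PTR: partial traces. -/
def T_PTR : Prop := ∀ (K : Type) [Field K] [CharZero K] (I : Type) [Fintype I] [DecidableEq I]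
  (F : Form K I) (A : ℕ → Submodule ℚ (List I → K)), Calc F.o F.η F.ω A →
  ∀ t ∈ A 2, ∃ t' ∈ A 1, ∀ a b, pt2 F (M4 F t) a b = t' [a, F.st b] * F.c (F.st b)

/-- PAR: the endomorphisms preserve the parity. -/
def T_PAR : Prop := ∀ (K : Type) [Field K] [CharZero K] (I : Type) [Fintype I] [DecidableEq I]
  (F : Form K I) (A : ℕ → Submodule ℚ (List I → K)), Calc F.o F.η F.ω A →
  ∀ t ∈ A 2, ∀ x y, M4 F t x y ≠ 0 → (F.o x.1 ^^ F.o x.2) = (F.o y.1 ^^ F.o y.2)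

/-- COM: the endomorphisms commute with the symplectic Lie algebra. -/
def T_COM : Prop := ∀ (K : Type) [Field K] [CharZero K] (V P : Type) [Fintype V] [DecidableEq V]
  [Fintype P] [DecidableEq P] (F : Form K (V ⊕ P)) (A : ℕ → Submodule ℚ (List (V ⊕ P) → K)),
  Sys F A → ∀ t ∈ A 2, ∀ p q : V,
  M4 F t * D2 (F.T (Sum.inl p) (Sum.inl q)) = D2 (F.T (Sum.inl p) (Sum.inl q)) * M4 F t

/-- HTE: the tensor `h`. -/
def T_HTE : Prop := ∀ (K : Type) [Field K] [CharZero K] (I : Type) [Fintype I] [DecidableEq I]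
  (F : Form K I) (A : ℕ → Submodule ℚ (List I → K)), Calc F.o F.η F.ω A →
  ∀ (c1 : I → I → K) (c2 : I → I → I → I → K) (m : ℚ), two (Matrix.of c1) ∈ A 1 → four c2 ∈ A 2 →
  (∀ a b e d, c2 a b e d = ks K (F.o a) (F.o b) * c2 b a e d) →
  (∀ a d, c1 a d = ∑ b, F.c b * c2 a b (F.st b) d) →
  ∃ t ∈ A 2,
    (∀ x p q, F.o p = true → F.o q = true → M4 F t x (p, q) + M4 F t x (q, p) =
      (if x.1 = p then F.c q * c1 (F.st q) x.2 else 0) +
      (if x.1 = q then F.c p * c1 (F.st p) x.2 else 0) +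
      (m : K) * (F.c p * F.c q *
        (c2 x.1 (F.st q) (F.st p) x.2 + c2 x.1 (F.st p) (F.st q) x.2))) ∧
    str2 F (M4 F t) = (F.sd + m) * ∑ a, F.c a * c1 a (F.st a) ∧
    str2 F (M4 F t * Sx F) = ∑ a, F.c a * c1 a (F.st a) +
      (m : K) * ∑ a, ∑ d, F.c a * F.c (F.st d) * c2 a (F.st a) (F.st d) d

/-- NNN: the pairing in terms of `C1` and `C2`. -/
def T_NNN : Prop := ∀ (K : Type) [Field K] (I : Type) [Fintype I] [DecidableEq I] (F : Form K I)
  (n : ℕ) (x y : List I → K), 2 ≤ n →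
  (∑ a, F.c a * C1 F n x y a (F.st a) = Pr F n x y) ∧
  (∀ a d, C1 F n x y a d = ∑ b, F.c b * C2 F n x y a b (F.st b) d) ∧
  (∑ a, ∑ d, F.c a * F.c (F.st d) * C2 F n x y a (F.st a) (F.st d) d =
    Pr F (n - 2) (con F.η 0 x) (con' F y)) ∧
  (Symm F.o n x → ∀ a b e d, C2 F n x y a b e d = ks K (F.o a) (F.o b) * C2 F n x y b a e d)

/-! ### The key lemma -/

/-- WTS: weights. -/
def T_WTS : Prop := ∀ (K : Type) [Field K] [CharZero K] (V P : Type) [Fintype V] [DecidableEq V]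
  [Fintype P] [DecidableEq P] (F : Form K (V ⊕ P)) (A : ℕ → Submodule ℚ (List (V ⊕ P) → K)),
  Sys F A → ∀ g : Matrix ((V ⊕ P) × (V ⊕ P)) ((V ⊕ P) × (V ⊕ P)) K,
  (∀ p q : V, g * D2 (F.T (Sum.inl p) (Sum.inl q)) = D2 (F.T (Sum.inl p) (Sum.inl q)) * g) →
  (∀ x (p : V) (y : P), g x (Sum.inl p, Sum.inr y) ≠ 0 →
    ∃ y' : P, x = (Sum.inl p, Sum.inr y') ∨ x = (Sum.inr y', Sum.inl p)) ∧
  (∀ x (y y' : P), g x (Sum.inr y, Sum.inr y') ≠ 0 →
    (∃ z z' : P, x = (Sum.inr z, Sum.inr z')) ∨ ∃ p q : V, x = (Sum.inl p, Sum.inl q)) ∧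
  (∀ (p q : V) (y y' : P), g (Sum.inl p, Sum.inr y') (Sum.inl p, Sum.inr y) =
    g (Sum.inl q, Sum.inr y') (Sum.inl q, Sum.inr y))

/-- BLK: the blocks of the powers. -/
def T_BLK : Prop := ∀ (K : Type) [Field K] [CharZero K] (V P : Type) [Fintype V] [DecidableEq V]
  [Fintype P] [DecidableEq P] (F : Form K (V ⊕ P)) (A : ℕ → Submodule ℚ (List (V ⊕ P) → K)),
  Sys F A → ∀ g : Matrix ((V ⊕ P) × (V ⊕ P)) ((V ⊕ P) × (V ⊕ P)) K, Nonempty V →
  (∀ x y, g x y ≠ 0 → (F.o x.1 ^^ F.o x.2) = (F.o y.1 ^^ F.o y.2)) →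
  g * Sx F = -g → Sx F * g = -g → (∀ x (p q : V), g x (Sum.inl p, Sum.inl q) = 0) →
  (∀ x (p : V) (y : P), g x (Sum.inl p, Sum.inr y) ≠ 0 →
    ∃ y' : P, x = (Sum.inl p, Sum.inr y') ∨ x = (Sum.inr y', Sum.inl p)) →
  (∀ x (y y' : P), g x (Sum.inr y, Sum.inr y') ≠ 0 →
    (∃ z z' : P, x = (Sum.inr z, Sum.inr z')) ∨ ∃ p q : V, x = (Sum.inl p, Sum.inl q)) →
  (∀ (p q : V) (y y' : P), g (Sum.inl p, Sum.inr y') (Sum.inl p, Sum.inr y) =
    g (Sum.inl q, Sum.inr y') (Sum.inl q, Sum.inr y)) →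
  ∃ (m : Matrix P P K) (u : Matrix (P × P) (P × P) K),
    (∀ (p : V) (y y' : P), m y' y = g (Sum.inl p, Sum.inr y') (Sum.inl p, Sum.inr y)) ∧
    (∀ z y : P × P, u z y = g (Sum.inr z.1, Sum.inr z.2) (Sum.inr y.1, Sum.inr y.2)) ∧
    (∀ a b, m a b ≠ 0 → F.o (Sum.inr a) = F.o (Sum.inr b)) ∧
    (∀ n : ℕ, (∀ x (p q : V), (g ^ (n + 1)) x (Sum.inl p, Sum.inl q) = 0) ∧
      (∀ (p : V) (y y' : P), (g ^ (n + 1)) (Sum.inl p, Sum.inr y') (Sum.inl p, Sum.inr y) =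
        2 ^ n * (m ^ (n + 1)) y' y) ∧
      (∀ (p : V) (y y' : P), (g ^ (n + 1)) (Sum.inr y', Sum.inl p) (Sum.inr y, Sum.inl p) =
        2 ^ n * (m ^ (n + 1)) y' y) ∧
      (∀ z y : P × P, (g ^ (n + 1)) (Sum.inr z.1, Sum.inr z.2) (Sum.inr y.1, Sum.inr y.2) =
        (u ^ (n + 1)) z y))

/-- TRC: the traces of the powers. -/
def T_TRC : Prop := ∀ (K : Type) [Field K] [CharZero K] (V P : Type) [Fintype V] [DecidableEq V]
  [Fintype P] [DecidableEq P] (F : Form K (V ⊕ P)) (A : ℕ → Submodule ℚ (List (V ⊕ P) → K)),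
  Sys F A → ∀ (g : Matrix ((V ⊕ P) × (V ⊕ P)) ((V ⊕ P) × (V ⊕ P)) K) (m : Matrix P P K)
  (u : Matrix (P × P) (P × P) K) (s : K),
  (∀ x (p q : V), g x (Sum.inl p, Sum.inl q) = 0) →
  (∀ (p : V) (y y' : P), g (Sum.inl p, Sum.inr y') (Sum.inl p, Sum.inr y) = s * m y' y) →
  (∀ (p : V) (y y' : P), g (Sum.inr y', Sum.inl p) (Sum.inr y, Sum.inl p) = s * m y' y) →
  (∀ z y : P × P, g (Sum.inr z.1, Sum.inr z.2) (Sum.inr y.1, Sum.inr y.2) = u z y) →
  str2 F g = -(2 * (Fintype.card V : K) * s * ∑ y : P, sg K (F.o (Sum.inr y)) * m y y) +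
    ∑ z : P × P, sg K (F.o (Sum.inr z.1)) * sg K (F.o (Sum.inr z.2)) * u z z ∧
  ∀ p : V, pt2 F g (Sum.inl p) (Sum.inl p) = s * ∑ y : P, sg K (F.o (Sum.inr y)) * m y y

/-- EQT: the traces of the powers determine the characteristic polynomial, up to powers of `X`. -/
def T_EQT : Prop := ∀ (K : Type) [Field K] [CharZero K] (P Q : Type) [Fintype P] [DecidableEq P]
  [Fintype Q] [DecidableEq Q] (A : Matrix P P K) (B : Matrix Q Q K),
  (∀ k : ℕ, (A ^ (k + 1)).trace = (B ^ (k + 1)).trace) →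
  A.charpoly * Polynomial.X ^ Fintype.card Q = B.charpoly * Polynomial.X ^ Fintype.card P

/-- MLT: multiplicities of eigenvalues. -/
def T_MLT : Prop := ∀ (K : Type) [Field K] [CharZero K] (P Q : Type) [Fintype P] [DecidableEq P]
  [Fintype Q] [DecidableEq Q] (o : P → Bool) (o' : Q → Bool) (m : Matrix P P K) (u : Matrix Q Q K)
  (N : ℕ), (∀ a b, m a b ≠ 0 → o a = o b) → (∀ a b, u a b ≠ 0 → o' a = o' b) →
  2 * Fintype.card Q < N →
  (∀ n : ℕ, 2 * ∑ z, sg K (o' z) * (u ^ (n + 1)) z z =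
    (N : K) * ∑ y, sg K (o y) * (((2 : K) • m) ^ (n + 1)) y y) →
  ∑ y, sg K (o y) * m y y = 0

/-- SDM: the super dimension. -/
def T_SDM : Prop := ∀ (K : Type) [Field K] [CharZero K] (V P : Type) [Fintype V] [DecidableEq V]
  [Fintype P] [DecidableEq P] (F : Form K (V ⊕ P)) (A : ℕ → Submodule ℚ (List (V ⊕ P) → K)),
  Sys F A → (∃ N : ℕ, 2 * Fintype.card P ^ 2 < N ∧ F.sd + 2 * Fintype.card V = N) ∧
  (∃ l : ℕ, 1 ≤ l ∧ 2 * l ≤ Fintype.card V + Fintype.card P + 2 ∧ F.sd = 2 - 2 * l)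

/-- KEY: the key lemma. -/
def T_KEY : Prop := ∀ (K : Type) [Field K] [CharZero K] (V P : Type) [Fintype V] [DecidableEq V]
  [Fintype P] [DecidableEq P] (F : Form K (V ⊕ P)) (A : ℕ → Submodule ℚ (List (V ⊕ P) → K)),
  Sys F A → ∀ t ∈ A 2, M4 F t * Sx F = -M4 F t → Sx F * M4 F t = -M4 F t →
  (∀ x (p q : V), M4 F t x (Sum.inl p, Sum.inl q) = 0) → str2 F (M4 F t) = 0

/-- STR: the relation of the pairings of symmetric classes and of their contractions. -/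
def T_STR : Prop := ∀ (K : Type) [Field K] [CharZero K] (V P : Type) [Fintype V] [DecidableEq V]
  [Fintype P] [DecidableEq P] (F : Form K (V ⊕ P)) (A : ℕ → Submodule ℚ (List (V ⊕ P) → K)),
  Sys F A → ∀ (k : ℕ) (x y : List (V ⊕ P) → K), 1 ≤ k → x ∈ A k → rv y ∈ A k →
  Symm F.o (2 * k) x → Symm F.o (2 * k) y →
  (F.sd + (2 * k - 2)) * Pr F (2 * k) x y =
    (2 * k - 1) * Pr F (2 * k - 2) (con F.η 0 x) (con' F y)

/-- REC: the iterated contraction of a symmetric class. -/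
def T_REC : Prop := ∀ (K : Type) [Field K] [CharZero K] (V P : Type) [Fintype V] [DecidableEq V]
  [Fintype P] [DecidableEq P] (F : Form K (V ⊕ P)) (A : ℕ → Submodule ℚ (List (V ⊕ P) → K)),
  Sys F A → ∀ (l : ℕ) (x : List (V ⊕ P) → K), 1 ≤ l → F.sd = 2 - 2 * l → x ∈ A l →
  Symm F.o (2 * l) x → itc F l x = 0

/-! ### The phantom -/

/-- SYM: the symmetrizer. -/
def T_SYM : Prop := ∀ (K : Type) [Field K] (I : Type) [Fintype I] [DecidableEq I] (o : I → Bool)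
  (n : ℕ), ∃ L : List (List ℕ), [] ∈ L ∧ (∀ js ∈ L, ∀ j ∈ js, j + 2 ≤ n) ∧
  ∀ t : List I → K, Symm o n (fun w => (L.map fun js => sws o js t w).sum)

/-- TRP: the supertrace of a composition is the pairing. -/
def T_TRP : Prop := ∀ (K : Type) [Field K] (I : Type) [Fintype I] [DecidableEq I] (F : Form K I)
  (l : ℕ) (y z : List I → K),
  ∑ u : List.Vector I l, sgw K F.o u.1 * (op F.η l y * op F.η l z) u u = Pr F (2 * l) y (rv z)

/-- ZTR: the symmetrization of the identity is numerically trivial, in terms of the pairing. -/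
def T_ZTR : Prop := ∀ (K : Type) [Field K] (I : Type) [Fintype I] [DecidableEq I] (F : Form K I)
  (l : ℕ) (L : List (List ℕ)), (∀ js ∈ L, ∀ j ∈ js, j + 2 ≤ 2 * l) →
  (∀ X : List I → K, Symm F.o (2 * l) X → Pr F (2 * l) X
    (rv fun w => (L.map fun js => sws F.o js (idt F.ω l) w).sum) = (L.length : K) * itc F l X) ∧
  (∀ y Z : List I → K, Symm F.o (2 * l) Z → Pr F (2 * l)
    (fun w => (L.map fun js => sws F.o js y w).sum) (rv Z) = (L.length : K) * Pr F (2 * l) y (rv Z))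

/-- EIG: an eigenvector of the symmetrization of the identity. -/
def T_EIG : Prop := ∀ (K : Type) [Field K] [CharZero K] (I : Type) [Fintype I] [DecidableEq I]
  (F : Form K I) (l : ℕ) (L : List (List ℕ)) (a : I), [] ∈ L → (∀ js ∈ L, ∀ j ∈ js, j + 2 ≤ 2 * l) →
  F.o a = false →
  (∀ u : List I, u.length = l → (L.map fun js => sws F.o js (idt F.ω l)
    (u ++ List.replicate l (F.st a))).sum ≠ 0 → u = List.replicate l a) ∧
  (∃ c : ℕ, 1 ≤ c ∧ (L.map fun js => sws F.o js (idt F.ω l)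
    (List.replicate l a ++ List.replicate l (F.st a))).sum = (c : K)) ∧
  (∀ w : List I, ∃ z : ℤ, (L.map fun js => sws F.o js (idt F.ω l) w).sum = (z : K))

/-- COM of operators on tensors of order `l`: MLG. -/
def T_MLG : Prop := ∀ (K : Type) [Field K] [CharZero K] (I : Type) [Fintype I] [DecidableEq I]
  (F : Form K I) (A : ℕ → Submodule ℚ (List I → K)), Calc F.o F.η F.ω A → ∀ l : ℕ,
  (∀ t ∈ A l, ∀ t' ∈ A l, ∃ t'' ∈ A l, op F.η l t'' = op F.η l t * op F.η l t') ∧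
  idt F.ω l ∈ A l ∧ op F.η l (idt F.ω l) = 1

/-- IDM: an idempotent polynomial in a class with rational coefficients. -/
def T_IDM : Prop := ∀ (K : Type) [Field K] [CharZero K] (I : Type) [Fintype I] [DecidableEq I]
  (F : Form K I) (A : ℕ → Submodule ℚ (List I → K)), Calc F.o F.η F.ω A → ∀ (l : ℕ)
  (Z : List I → K), Z ∈ A l → (∀ w, ∃ z : ℤ, Z w = (z : K)) →
  (∀ N : ℕ, op F.η l Z ^ N ≠ 0) →
  (∀ y ∈ A l, ∑ u : List.Vector I l, sgw K F.o u.1 * (op F.η l y * op F.η l Z) u u = 0) →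
  ∃ e ∈ A l, op F.η l e * op F.η l e = op F.η l e ∧ op F.η l e ≠ 0 ∧
    ∀ y ∈ A l, ∑ u : List.Vector I l, sgw K F.o u.1 * (op F.η l y * op F.η l e) u u = 0

/-- NUM: the phantom. -/
def T_NUM : Prop := ∀ (K : Type) [Field K] [CharZero K] (V P : Type) [Fintype V] [DecidableEq V]
  [Fintype P] [DecidableEq P] (F : Form K (V ⊕ P)) (A : ℕ → Submodule ℚ (List (V ⊕ P) → K)),
  Sys F A → (∃ y : P, F.o (Sum.inr y) = false) → ∃ l : ℕ,
    2 * l ≤ Fintype.card V + Fintype.card P + 2 ∧ ∃ e ∈ A l,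
    op F.η l e * op F.η l e = op F.η l e ∧ op F.η l e ≠ 0 ∧
    ∀ y ∈ A l, ∑ u : List.Vector (V ⊕ P) l, sgw K F.o u.1 * (op F.η l y * op F.η l e) u u = 0

end Pool.Agent.H2.NL
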