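import Pool.Agent.H2.NL.Targets

/-!
# Targets for the Weil cohomology
-/

set_option autoImplicit false

open Matrix Pool.Agent.H64.CC

namespace Pool.Agent.H2.NL

/-! ### Linear maps and tensors -/

/-- PFA: functoriality of `pf`, exchanges, contractions, products, derivations. -/
def T_PFA : Prop := ∀ (K : Type) [Field K] (I J : Type) [Fintype I] [DecidableEq I] [Fintype J]
  [DecidableEq J] (j : Matrix I J K) (o : I → Bool) (o' : J → Bool),
  (∀ a b, j a b ≠ 0 → o a = o' b) →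
  (∀ (k : ℕ) (t : List J → K), pf j (sw o' k t) = sw o k (pf j t)) ∧
  (∀ (η : Matrix I I K) (k : ℕ) (t : List J → K) (w : List I), k ≤ w.length →
    con η k (pf j t) w = pf j (con (jᵀ * η * j) k t) w) ∧
  (∀ (n : ℕ) (t t' : List J → K) (w : List I), pf j (tp n t t') w = tp n (pf j t) (pf j t') w) ∧
  (∀ s : Matrix J J K, pf j (two s) = two (j * s * jᵀ)) ∧
  (∀ (T : Matrix I I K) (T' : Matrix J J K), T * j = j * T' → ∀ t : List J → K,
    der T (pf j t) = pf j (der T' t))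

/-- PFB: compositions. -/
def T_PFB : Prop := ∀ (K : Type) [Field K] (I J M : Type) [Fintype I] [DecidableEq I] [Fintype J]
  [DecidableEq J] [Fintype M] [DecidableEq M] (i : Matrix I J K) (j : Matrix J M K),
  (∀ t : List M → K, pf i (pf j t) = pf (i * j) t) ∧
  (∀ t : List M → K, pf (1 : Matrix M M K) t = t) ∧
  (∀ l : ℕ, Jm i l * Jm j l = Jm (i * j) l) ∧ (∀ l : ℕ, Jm (1 : Matrix M M K) l = 1)

/-- TRF: the calculus on a direct factor. -/
def T_TRF : Prop := ∀ (K : Type) [Field K] [CharZero K] (I J : Type) [Fintype I] [DecidableEq I]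
  [Fintype J] [DecidableEq J] (o : I → Bool) (η ω : Matrix I I K)
  (A : ℕ → Submodule ℚ (List I → K)) (o' : J → Bool) (η' ω' : Matrix J J K) (j : Matrix I J K)
  (i : Matrix J I K), Calc o η ω A → (∀ a b, j a b ≠ 0 → o a = o' b) →
  (∀ b a, i b a ≠ 0 → o' b = o a) → i * j = 1 → jᵀ * η * j = η' → two (j * ω' * jᵀ) ∈ A 1 →
  Calc o' η' ω' (pull j A)

/-- OPJ: the operators of the images of tensors. -/
def T_OPJ : Prop := ∀ (K : Type) [Field K] (I J : Type) [Fintype I] [DecidableEq I] [Fintype J]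
  [DecidableEq J] (η : Matrix I I K) (η' : Matrix J J K) (j : Matrix I J K) (i : Matrix J I K),
  jᵀ * η = η' * i → ∀ (l : ℕ) (t : List J → K),
  op η l (pf j t) = Jm j l * op η' l t * Jm i l

/-- IDS: the nested products of a class of order two. -/
def T_IDS : Prop := ∀ (K : Type) [Field K] [CharZero K] (I : Type) [Fintype I] [DecidableEq I]
  (o : I → Bool) (η ω : Matrix I I K) (A : ℕ → Submodule ℚ (List I → K)), Calc o η ω A →
  ∀ s : Matrix I I K, two s ∈ A 1 → ∀ l : ℕ, idt s l ∈ A l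

/-- OPG: the operator of a tensor determines it, and all operators come from tensors. -/
def T_OPG : Prop := ∀ (K : Type) [Field K] (I : Type) [Fintype I] [DecidableEq I]
  (η ω : Matrix I I K), η * ω = 1 → ω * η = 1 → ∀ l : ℕ,
  (∀ t t' : List I → K, op η l t = op η l t' → ∀ w : List I, w.length = 2 * l → t w = t' w) ∧
  (∀ t t' : List I → K, (∀ w : List I, w.length = 2 * l → t w = t' w) → op η l t = op η l t') ∧
  (op η l (idt ω l) = 1) ∧
  (∀ s : Matrix I I K, op η l (idt s l) = Jm (s * η) l) ∧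
  (∀ s : Matrix I I K, op η 1 (two s) = Jm (s * η) 1)

/-- HYB: a graded space with a supersymmetric form of odd degree has a hyperbolic homogeneous
basis. -/
def T_HYB : Prop := ∀ (K : Type) [Field K] [CharZero K] (N : ℕ) (deg : Fin N → ℕ) (τ : ℕ)
  (η : Matrix (Fin N) (Fin N) K), Odd τ → (∀ a b, η a b ≠ 0 → deg a + deg b = 2 * τ) →
  (∀ a b, η a b = ks K (decide (Odd (deg a))) (decide (Odd (deg b))) * η b a) →
  ∀ U : Submodule K (Fin N → K),
  (∀ u ∈ U, ∀ d : ℕ, (fun a => if deg a = d then u a else 0) ∈ U) →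
  (∀ u ∈ U, (∀ v ∈ U, u ⬝ᵥ (η *ᵥ v) = 0) → u = 0) →
  ∃ (n : ℕ) (j : Matrix (Fin N) (Fin n) K) (dg : Fin n → ℕ) (F : Form K (Fin n)),
    n = Module.finrank K U ∧ (∀ b, (fun a => j a b) ∈ U) ∧ (∀ u ∈ U, ∃ x, u = j *ᵥ x) ∧
    jᵀ * η * j = F.η ∧ (∀ a b, j a b ≠ 0 → deg a = dg b) ∧ (∀ b, F.o b = decide (Odd (dg b)))

/-- the data which describe the motive `R` in a hyperbolic homogeneous basis: `j` and `i` are the
matrices of the inclusion `H(R) → H(T)` and of the projection -/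
structure Adapt {K : Type} [Field K] [CharZero K] {N : ℕ} (deg : Fin N → ℕ)
    (η ρ : Matrix (Fin N) (Fin N) K) (U : Submodule K (Fin N → K)) (n n' : ℕ) where
  j : Matrix (Fin N) (Fin n ⊕ Fin n') K
  i : Matrix (Fin n ⊕ Fin n') (Fin N) K
  dg : Fin n ⊕ Fin n' → ℕ
  F : Form K (Fin n ⊕ Fin n')
  rank_U : n = Module.finrank K U
  rank_le : n + n' ≤ N
  ij : i * j = 1
  ji : j * i = ρ
  adj : ρᵀ * η = η * ρ
  form : jᵀ * η * j = F.η
  form_i : jᵀ * η = F.η * i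
  om : j * F.ω * jᵀ * η = ρ
  j_deg : ∀ a b, j a b ≠ 0 → deg a = dg b
  i_deg : ∀ b a, i b a ≠ 0 → dg b = deg a
  o_eq : ∀ b, F.o b = decide (Odd (dg b))
  st_V : ∀ p, ∃ q, F.st (Sum.inl p) = Sum.inl q
  mem_U : ∀ p, (fun a => j a (Sum.inl p)) ∈ U

/-- ADA: such data exist. -/
def T_ADA : Prop := ∀ (K : Type) [Field K] [CharZero K] (N : ℕ) (deg : Fin N → ℕ) (τ : ℕ)
  (η ρ : Matrix (Fin N) (Fin N) K), Odd τ → (∀ a b, η a b ≠ 0 → deg a + deg b = 2 * τ) →
  (∀ a b, η a b = ks K (decide (Odd (deg a))) (decide (Odd (deg b))) * η b a) → IsUnit η →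
  ρ * ρ = ρ → ρᵀ * η = η * ρ → (∀ a b, ρ a b ≠ 0 → deg a = deg b) →
  ∀ U : Submodule K (Fin N → K), (∀ u ∈ U, ∀ a, u a ≠ 0 → deg a = τ) → (∀ u ∈ U, ρ *ᵥ u = u) →
  (∀ u ∈ U, (∀ v ∈ U, u ⬝ᵥ (η *ᵥ v) = 0) → u = 0) →
  ∃ n n' : ℕ, Nonempty (Adapt deg η ρ U n n')

/-! ### The Weil cohomology -/

/-- VAN: the vanishing cohomology. -/
def T_VAN : Prop := ∀ (K : Type) [Field K] [CharZero K] (W : Weil K), W.Theory →
  ∀ (V : W.Var 0) (L : W.Hom V V), L ∈ W.Lef V → ∀ (r m : ℕ) (T : W.Var m)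
  (S : W.Symplectic V L r T),
  (∀ x : W.H T, W.ap S.down x = 0 → W.InH T (W.dim T) x) ∧
  (∀ x : W.H T, ∃ (v : W.H T) (y : W.H V), W.Vanishing S.toGenericIntersection v ∧
    x = v + W.ap S.up y) ∧
  (∀ u, W.Vanishing S.toGenericIntersection u →
    (∀ v, W.Vanishing S.toGenericIntersection v → u ⬝ᵥ (S.powers.form *ᵥ v) = 0) → u = 0) ∧
  (∀ U : Submodule K (W.H T), (∀ u, u ∈ U ↔ W.Vanishing S.toGenericIntersection u) →
    W.rk T ≤ Module.finrank K U + W.rk V)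

/-- SCA: all correspondences of degree 0 are combinations of the diagonal and of restrictions. -/
def T_SCA : Prop := ∀ (K : Type) [Field K] [CharZero K] (W : Weil K), W.Theory →
  ∀ (V : W.Var 0) (L : W.Hom V V), L ∈ W.Lef V → ∀ (r m : ℕ) (T : W.Var m)
  (S : W.Symplectic V L r T), ∀ f ∈ W.cyc T T 0, ∃ q : ℚ, ∃ c ∈ W.cyc V V (-(r : ℤ)),
    f = W.rat q (W.id T) + W.comp (W.comp S.up c) S.down

/-- ADJ: adjoints. -/
def T_ADJ : Prop := ∀ (K : Type) [Field K] [CharZero K] (W : Weil K) (m : ℕ) (T : W.Var m)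
  (P : W.Powers T), ∀ f ∈ W.cyc T T 0, ∃ f' ∈ W.cyc T T 0, fᵀ * P.form = P.form * f'

/-- RTR: rational traces. -/
def T_RTR : Prop := ∀ (K : Type) [Field K] [CharZero K] (W : Weil K), W.Theory →
  ∀ (V : W.Var 0) (L : W.Hom V V), L ∈ W.Lef V → ∀ (r m : ℕ) (T : W.Var m)
  (S : W.Intersection V L r T), ∀ c ∈ W.cyc V V (-(r : ℤ)), ∀ k : ℕ, ∃ q : ℚ,
    W.tr (W.pw (W.comp (W.comp S.up c) S.down) (k + 1)) = (q : K)

/-- FTT: an idempotent polynomial. -/
def T_FTT : Prop := ∀ (K : Type) [Field K] [CharZero K] (m : ℕ) (x : Matrix (Fin m) (Fin m) K),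
  (∀ k : ℕ, ∃ q : ℚ, (x ^ (k + 1)).trace = (q : K)) → (∀ N : ℕ, x ^ N ≠ 0) →
  ∃ g : Polynomial ℚ, (x * Polynomial.aeval x g) * (x * Polynomial.aeval x g) =
    x * Polynomial.aeval x g ∧ x * Polynomial.aeval x g ≠ 0

/-- EPS: the maximal self-adjoint idempotent. -/
def T_EPS : Prop := ∀ (K : Type) [Field K] [CharZero K] (W : Weil K), W.Theory →
  ∀ (V : W.Var 0) (L : W.Hom V V), L ∈ W.Lef V → ∀ (r m : ℕ) (T : W.Var m)
  (S : W.Symplectic V L r T), ∃ ε ∈ W.cyc T T 0, ε * ε = ε ∧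
    εᵀ * S.powers.form = S.powers.form * ε ∧
    (∀ u, W.Vanishing S.toGenericIntersection u → W.ap ε u = 0) ∧
    ∀ f ∈ W.cyc T T 0, (∀ u, W.Vanishing S.toGenericIntersection u → W.ap f u = 0) →
      W.str (f * (1 - ε)) = 0

/-- CAL: the calculus of the motive `R`. -/
def T_CAL : Prop := ∀ (K : Type) [Field K] [CharZero K] (W : Weil K) (m : ℕ) (T : W.Var m)
  (P : W.Powers T) (ρ : W.Hom T T), ρ ∈ W.cyc T T 0 →
  ∀ (U : Submodule K (W.H T)) (n n' : ℕ) (D : Adapt (W.deg T) P.form ρ U n n'),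
  Calc D.F.o D.F.η D.F.ω (pull D.j P.toPowerData.classes)

/-- SYS: the system of the motive `R`. -/
def T_SYS : Prop := ∀ (K : Type) [Field K] [CharZero K] (W : Weil K), W.Theory →
  ∀ (V : W.Var 0) (L : W.Hom V V), L ∈ W.Lef V → ∀ (r m : ℕ) (T : W.Var m)
  (S : W.Symplectic V L r T), ∀ ε ∈ W.cyc T T 0, ε * ε = ε →
  εᵀ * S.powers.form = S.powers.form * ε →
  (∀ u, W.Vanishing S.toGenericIntersection u → W.ap ε u = 0) →
  (∀ f ∈ W.cyc T T 0, (∀ u, W.Vanishing S.toGenericIntersection u → W.ap f u = 0) →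
    W.str (f * (1 - ε)) = 0) →
  ∀ U : Submodule K (W.H T), (∀ u, u ∈ U ↔ W.Vanishing S.toGenericIntersection u) →
  ∀ (n n' : ℕ) (D : Adapt (W.deg T) S.powers.form (1 - ε) U n n'),
  Sys D.F (pull D.j S.powers.toPowerData.classes)

/-- PHA: from a phantom of the system to a phantom on a power of `T`. -/
def T_PHA : Prop := ∀ (K : Type) [Field K] [CharZero K] (W : Weil K), W.Theory →
  ∀ (m : ℕ) (T : W.Var m) (P : W.Powers T) (ρ : W.Hom T T), ρ ∈ W.cyc T T 0 → ρ * ρ = ρ →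
  ∀ (U : Submodule K (W.H T)) (n n' : ℕ) (D : Adapt (W.deg T) P.form ρ U n n') (l : ℕ),
  (∃ e ∈ pull D.j P.toPowerData.classes l,
    op D.F.η l e * op D.F.η l e = op D.F.η l e ∧ op D.F.η l e ≠ 0 ∧
    ∀ y ∈ pull D.j P.toPowerData.classes l, ∑ u : List.Vector (Fin n ⊕ Fin n') l,
      sgw K D.F.o u.1 * (op D.F.η l y * op D.F.η l e) u u = 0) →
  ¬ W.NoPhantom (P.pow l)

/-- CPL: the sign conjecture, if the motive `R` is odd. -/
def T_CPL : Prop := ∀ (K : Type) [Field K] [CharZero K] (W : Weil K), W.Theory →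
  ∀ (V : W.Var 0) (L : W.Hom V V), L ∈ W.Lef V → ∀ (r m : ℕ) (T : W.Var m)
  (S : W.Symplectic V L r T), ∀ ε ∈ W.cyc T T 0,
  (∀ u, W.Vanishing S.toGenericIntersection u → W.ap ε u = 0) →
  (∀ a b, (1 - ε) a b ≠ 0 → Odd (W.deg T a)) → W.Cplus T

/-- LOC: the local theorem. -/
def T_LOC : Prop := ∀ (K : Type) [Field K] [CharZero K] (W : Weil K), W.Theory →
  ∀ (V : W.Var 0) (L : W.Hom V V), L ∈ W.Lef V → ∀ (r m : ℕ) (T : W.Var m)
  (S : W.Symplectic V L r T),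
  (∀ n : ℕ, 2 * n ≤ W.rk T + 2 → W.NoPhantom (S.powers.pow n)) → W.Cplus T

/-- CPW: the sign conjecture for the powers. -/
def T_CPW : Prop := ∀ (K : Type) [Field K] [CharZero K] (W : Weil K), W.Theory →
  ∀ (m : ℕ) (T : W.Var m) (P : W.Powers T), W.Cplus T → ∀ n : ℕ, W.Cplus (P.pow n)

/-- NIL: the sign conjecture implies nilpotence. -/
def T_NIL : Prop := ∀ (K : Type) [Field K] [CharZero K] (W : Weil K), W.Theory →
  ∀ (n : ℕ) (X : W.Var n), (W.Cplus X → W.Nilpotence X) ∧ (W.Nilpotence X → W.NoPhantom X)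

end Pool.Agent.H2.NL
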